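import Pool.Agent.Helper92.BO.GoalsE

/-!
Project BO: the values of the weights (goal `WtvStmt`).
-/

namespace Pool.Agent.Helper58.BO

open _root_.Pool.Agent.Helper81.CC _root_.Pool.Agent.Bin _root_.Pool.Agent.Helper92.VP
  _root_.Pool.Agent.Helper92.FR _root_.Pool.Agent.Helper92.BO

theorem sum_range_map {M : Type*} [AddCommMonoid M] (f : ℕ → M) (n : ℕ) :
    ((List.range n).map f).sum = ∑ i ∈ Finset.range n, f i := by
  induction n with
  | zero => simp
  | succ n ih =>
    rw [List.range_succ, List.map_append, List.sum_append, ih, Finset.sum_range_succ]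
    simp

theorem coeff_polyL (fl : List ℕ) (j : ℕ) : (polyL fl).coeff j = fl.getD j 0 := by
  unfold polyL
  rw [Polynomial.finsetSum_coeff]
  simp only [Polynomial.coeff_monomial]
  rw [Finset.sum_ite_eq' (Finset.range fl.length) j (fun i => fl.getD i 0)]
  split_ifs with h
  · rfl
  · rw [List.getD_eq_default]
    simpa using h

theorem pw_succ (fl : List ℕ) (m i : ℕ) : pw fl m (i + 1) = (List.range (m + 1)).map fun k =>
    BN.sum ((List.range (k + 1)).map fun j =>
      BN.ofNat (fl.getD j 0) * (pw fl m i).getD (k - j) ⟨0⟩) := by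
  conv_lhs => unfold pw
  rw [List.range_succ (n := i), List.foldl_append]
  rfl

theorem pw_eq (fl : List ℕ) (m i : ℕ) :
    pw fl m i = (List.range (m + 1)).map fun k => (⟨(polyL fl ^ i).coeff k⟩ : BN) := by
  induction i with
  | zero =>
    unfold pw
    rw [List.range_zero, List.foldl_nil]
    refine List.map_congr_left fun k _ => ?_
    rw [pow_zero, Polynomial.coeff_one]
    split_ifs <;> rfl
  | succ i ih =>
    rw [pw_succ, ih]
    refine List.map_congr_left fun k hk => ?_
    apply BN.ext
    rw [BN.val_sum, List.map_map, sum_range_map, pow_succ', Polynomial.coeff_mul,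
      Finset.Nat.sum_antidiagonal_eq_sum_range_succ
        (fun a b => (polyL fl).coeff a * (polyL fl ^ i).coeff b)]
    refine Finset.sum_congr rfl fun j hj => ?_
    rw [List.mem_range] at hk
    have hlt : k - j < ((List.range (m + 1)).map
        fun k => (⟨(polyL fl ^ i).coeff k⟩ : BN)).length := by
      rw [List.length_map, List.length_range]
      omega
    rw [Function.comp_apply, BN.val_mul, BN.val_ofNat, List.getD_eq_getElem _ _ hlt,
      List.getElem_map, List.getElem_range, coeff_polyL]

theorem wtv : WtvStmt := by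
  intro fl D m i _ _
  unfold wt
  rw [Qn.val_mul, Qn.val_inv, Qn.val_mul, Qn.val_ofBN, Qn.val_ofBN]
  have h1 : (qNat i).val = i := by simp [qNat]
  have h2 : (BN.prod (List.replicate i (BN.ofNat D))).val = D ^ i := by
    rw [BN.val_prod, List.map_replicate, List.prod_replicate, BN.val_ofNat]
  have h3 : (BN.sum (pw fl m i)).val = aL fl m i := by
    rw [BN.val_sum, pw_eq, List.map_map, sum_range_map]
    rfl
  rw [h1, h2, h3, div_eq_mul_inv]
  push_cast
  rfl

end Pool.Agent.Helper58.BO
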